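import Pool.Agent.Y645.UL.Bas

/-! # The transcendence degree of the coordinate ring (job UL-DIM) -/

set_option autoImplicit false

namespace Pool.Agent.Y949.UL

open MvPolynomial Module Pool.Agent.Y645.UL

theorem t_DIM : S_DIM := by
  intro k L ι _ _ _ _ y A h
  classical
  set φ : MvPolynomial ι k →ₐ[k] L := aeval (fun j => (y j : L)) with hφ
  let ψ : (MvPolynomial ι k ⧸ van A) →ₐ[k] L :=
    Ideal.Quotient.liftₐ (van A) φ (fun a ha => (h a).1 ha)
  have hψ : ∀ f, ψ (Ideal.Quotient.mk (van A) f) = φ f := fun f => rfl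
  have hinj : Function.Injective ψ := by
    rw [injective_iff_map_eq_zero]
    intro x hx
    obtain ⟨f, rfl⟩ := Ideal.Quotient.mk_surjective x
    rw [hψ] at hx
    exact Ideal.Quotient.eq_zero_iff_mem.2 ((h f).2 hx)
  obtain ⟨B, hB1, hB2, -⟩ := exists_basis (k := k) (fun j => (y j : L))
  have hle : Algebra.trdeg k (MvPolynomial ι k ⧸ van A) ≤ (td k (fun j => (y j : L)) : ℕ) := by
    unfold Algebra.trdeg
    apply ciSup_le'
    rintro ⟨s, hs⟩
    apply Cardinal.card_le_of
    intro t
    have h0 : AlgebraicIndependent k (fun i : t => ((i : s) : MvPolynomial ι k ⧸ van A)) :=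
      AlgebraicIndependent.comp hs (fun i : t => (i : s)) Subtype.val_injective
    have h1 : AlgebraicIndependent k (fun i : t => ψ ((i : s) : MvPolynomial ι k ⧸ van A)) :=
      h0.map' hinj
    have h2 := card_le_td (x := fun j => (y j : L)) h1 (by
      intro i
      obtain ⟨f, hf⟩ := Ideal.Quotient.mk_surjective ((i : s) : MvPolynomial ι k ⧸ van A)
      rw [← hf, hψ]
      have h3 : φ f ∈ Algebra.adjoin k (Set.range fun j => (y j : L)) := by
        rw [Algebra.adjoin_range_eq_range_aeval]
        exact ⟨f, rfl⟩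
      exact isAlgebraic_algebraMap (⟨φ f, h3⟩ :
        Algebra.adjoin k (Set.range fun j => (y j : L))))
    rwa [Fintype.card_coe] at h2
  have hge : ((td k (fun j => (y j : L)) : ℕ) : Cardinal) ≤
      Algebra.trdeg k (MvPolynomial ι k ⧸ van A) := by
    rw [← hB1]
    have h1 : AlgebraicIndependent k
        (fun b : B => Ideal.Quotient.mk (van A) (X (b : ι))) := by
      apply AlgebraicIndependent.of_comp ψ
      convert hB2 using 1
      funext b
      change φ (X (b : ι)) = _
      rw [hφ, aeval_X]
    have h2 := h1.cardinalMk_le_trdeg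
    rwa [Cardinal.mk_coe_finset] at h2
  unfold dimT tdu
  rw [le_antisymm hle hge, Cardinal.toNat_natCast]

end Pool.Agent.Y949.UL
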